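import Pool.Agent.R629.Mirror.Abelian
import Pool.Agent.R629.Mirror.Dic

namespace Pool.Agent.Results.MP_91138c_lc.NotDominated

open MirrorCode

/-- The positive form of Q1: every valid (symmetric or asymmetric) mirror code over a non-abelian
finite group is dominated in parameters by the mirror code of some finite abelian group. -/
def Q1 : Prop :=
  ∀ (G : Type) [Group G] [Fintype G] [DecidableEq G], (∃ x y : G, x * y ≠ y * x) →
    ∀ A B : Finset G,
      (Valid (symCheck A B) →
        ∃ (G' : Type) (_ : CommGroup G') (_ : Fintype G') (_ : DecidableEq G') (A' B' : Finset G'),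
          Dominates (Fintype.card G') (kParam (symCheck A' B')) (dParam (symCheck A' B'))
            (Fintype.card G) (kParam (symCheck A B)) (dParam (symCheck A B))) ∧
      (Valid (asymCheck A B) →
        ∃ (G' : Type) (_ : CommGroup G') (_ : Fintype G') (_ : DecidableEq G') (A' B' : Finset G'),
          Dominates (Fintype.card G') (kParam (symCheck A' B')) (dParam (symCheck A' B'))
            (Fintype.card G) (kParam (asymCheck A B)) (dParam (asymCheck A B)))

/-- `A = {1, r², r³, x}` and `B = {1, r, r², x r², x r³, x r⁴}` in the dicyclic group of order 12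
(`QuaternionGroup 3`, with `a i = rⁱ` and `xa i = x rⁱ`). -/
theorem result :
    -- the asymmetric mirror code of the dicyclic group of order 12 is a [[12, 5, 3]] code
    (∃ A B : Finset (QuaternionGroup 3),
      A = {.a 0, .a 2, .a 3, .xa 0} ∧ B = {.a 0, .a 1, .a 2, .xa 2, .xa 3, .xa 4} ∧
      Valid (asymCheck A B) ∧ Fintype.card (QuaternionGroup 3) = 12 ∧
      kParam (asymCheck A B) = 5 ∧ dParam (asymCheck A B) = 3) ∧
    -- no abelian mirror code has n ≤ 12, k ≥ 5 and d ≥ 3 (even without a strict inequality)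
    (∀ (G' : Type) [CommGroup G'] [Fintype G'] [DecidableEq G'] (A' B' : Finset G'),
      ¬ (Fintype.card G' ≤ 12 ∧ 5 ≤ kParam (symCheck A' B') ∧ 3 ≤ dParam (symCheck A' B'))) ∧
    -- for abelian groups every mirror code is valid and the two constructions coincide
    (∀ (G' : Type) [CommGroup G'] [Fintype G'] [DecidableEq G'] (A' B' : Finset G'),
      Valid (symCheck A' B') ∧ asymCheck A' B' = symCheck A' B') ∧
    -- the negative answer to Q1
    ¬ Q1 := by
  have hab : ∀ (G' : Type) [CommGroup G'] [Fintype G'] [DecidableEq G'] (A' B' : Finset G'),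
      ¬ (Fintype.card G' ≤ 12 ∧ 5 ≤ kParam (symCheck A' B') ∧ 3 ≤ dParam (symCheck A' B')) := by
    intro G' _ _ _ A' B' ⟨h1, h2, h3⟩
    exact no_abelian h1 h2 h3
  refine ⟨⟨A₀, B₀, rfl, rfl, valid_dic, card_dic, k_dic, d_dic⟩, hab,
    fun G' _ _ _ A' B' => ⟨valid_sym A' B', asym_eq_sym A' B'⟩, ?_⟩
  intro hQ
  obtain ⟨G', i1, i2, i3, A', B', h1, h2, h3, -⟩ :=
    (hQ (QuaternionGroup 3) not_comm_dic A₀ B₀).2 valid_dic
  rw [card_dic] at h1
  rw [k_dic] at h2 h3
  rw [d_dic] at h3
  exact hab G' A' B' ⟨h1, h2, h3.resolve_left (by norm_num)⟩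

end Pool.Agent.Results.MP_91138c_lc.NotDominated
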